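import Mathlib

/-!
# Graphs with queue-number at most 3 have unbounded stack-number

The graphs are three-dimensional grids in which every unit square is triangulated.

Queue layout: with respect to the order by `-M x - M^2 y + (1 + M + M^2) z` the six edge
directions have lengths `M, M + 1`, `M^2, M^2 + 1` and `M^2 + M, M^2 + M + 1`, and two edges whose
lengths differ by at most one do not nest.

Stack layout: for a point `(x, y)` call an edge with end positions `a < c` *on* if
`a ≤ x < c` and `y < c - a`. In an `s`-stack layout there are at most `2 s^3` pairwise disjoint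
triangles with an odd number of edges that are on. So all but a bounded number of the grid planes
contain no such triangle, and on these planes the function on is a coboundary of a function that is
unique up to a global constant. Moving the point `(x, y)` by one step changes the function on few
edges, which gives a `ZMod 2` valued transition function that is closed on every unit square of the
parameter grid, but its sum along the boundary of the parameter grid is one.
-/

set_option autoImplicit false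

open Finset

namespace Pool.Agent.Results.MP_0feef2_co.QueueThree

/-- `G` has a `k`-stack layout: a linear order of the vertices and a partition of the edges into
`k` classes such that no two edges in the same class cross. -/
def HasStackLayout {V : Type} (G : SimpleGraph V) (k : ℕ) : Prop :=
  ∃ (_ : LinearOrder V) (page : Sym2 V → Fin k), ∀ u v x y : V, G.Adj u v → G.Adj x y →
    u < x → x < v → v < y → page s(u, v) ≠ page s(x, y)

/-- `G` has a `k`-queue layout: a linear order of the vertices and a partition of the edges into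
`k` classes such that no two edges in the same class nest. -/
def HasQueueLayout {V : Type} (G : SimpleGraph V) (k : ℕ) : Prop :=
  ∃ (_ : LinearOrder V) (queue : Sym2 V → Fin k), ∀ u v x y : V, G.Adj u v → G.Adj x y →
    u < x → x < y → y < v → queue s(u, v) ≠ queue s(x, y)

/-- The stack-number of `G`. -/
noncomputable def stackNumber {V : Type} (G : SimpleGraph V) : ℕ :=
  sInf {k | HasStackLayout G k}

/-- The queue-number of `G`. -/
noncomputable def queueNumber {V : Type} (G : SimpleGraph V) : ℕ :=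
  sInf {k | HasQueueLayout G k}

/-! ### Points and edges -/

/-- The edge with end positions `p`, `q` is on at the point `(x, y)`. -/
def on (x y p q : ℕ) : ZMod 2 :=
  if min p q ≤ x ∧ x < max p q ∧ y < max p q - min p q then 1 else 0

lemma on_comm (x y p q : ℕ) : on x y p q = on x y q p := by
  unfold on
  rw [min_comm p q, max_comm p q]

lemma on_sum {x y a b c : ℕ} (h1 : a < b) (h2 : b < c)
    (h : on x y a b + on x y b c + on x y a c ≠ 0) :
    (b ≤ x ∧ x < c ∧ y < c - a ∧ c - b ≤ y) ∨ (a ≤ x ∧ x < b ∧ y < c - a ∧ b - a ≤ y) := by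
  by_contra hcon
  apply h
  unfold on
  rw [min_eq_left h1.le, max_eq_right h1.le, min_eq_left h2.le, max_eq_right h2.le,
    min_eq_left (h1.trans h2).le, max_eq_right (h1.trans h2).le]
  split_ifs <;> first | (exfalso; omega) | decide

section general

set_option linter.unusedSectionVars false

variable {W : Type} [Fintype W] [DecidableEq W] (G : SimpleGraph W) (pos : W → ℕ)

/-- The vertices of a triple. -/
def verts (t : W × W × W) : Finset W := {t.1, t.2.1, t.2.2}

/-- An ordered triangle with an odd number of edges that are on. -/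
def Tri (x y : ℕ) (t : W × W × W) : Prop :=
  G.Adj t.1 t.2.1 ∧ G.Adj t.2.1 t.2.2 ∧ G.Adj t.1 t.2.2 ∧ pos t.1 < pos t.2.1 ∧
    pos t.2.1 < pos t.2.2 ∧
    ((pos t.2.1 ≤ x ∧ x < pos t.2.2 ∧ y < pos t.2.2 - pos t.1 ∧ pos t.2.2 - pos t.2.1 ≤ y) ∨
      (pos t.1 ≤ x ∧ x < pos t.2.1 ∧ y < pos t.2.2 - pos t.1 ∧ pos t.2.1 - pos t.1 ≤ y))

variable {G pos}

lemma card_family (hpos : Function.Injective pos) {s : ℕ} {page : Sym2 W → Fin s}
    (hNC : ∀ u v x y : W, G.Adj u v → G.Adj x y → pos u < pos x → pos x < pos v →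
      pos v < pos y → page s(u, v) ≠ page s(x, y)) (x y : ℕ) (T : Finset (W × W × W))
    (hT : ∀ t ∈ T, Tri G pos x y t)
    (hd : ∀ t ∈ T, ∀ t' ∈ T, t ≠ t' → Disjoint (verts t) (verts t')) :
    T.card ≤ 2 * s ^ 3 := by
  classical
  have hinj : Set.InjOn (fun t : W × W × W => ((decide (pos t.2.1 ≤ x), page s(t.1, t.2.1),
      page s(t.2.1, t.2.2), page s(t.1, t.2.2)) : Bool × Fin s × Fin s × Fin s)) T := by
    intro t ht t' ht' hf
    by_contra hne
    have hdis := hd t ht t' ht' hne
    obtain ⟨a1, b1, c1⟩ := t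
    obtain ⟨a2, b2, c2⟩ := t'
    obtain ⟨g1, g2, g3, l1, l2, hc⟩ := hT _ ht
    obtain ⟨g1', g2', g3', l1', l2', hc'⟩ := hT _ ht'
    simp only [Prod.mk.injEq, decide_eq_decide] at hf
    obtain ⟨f0, f1, f2, f3⟩ := hf
    simp only at g1 g2 g3 l1 l2 hc g1' g2' g3' l1' l2' hc' f0
    have hne' : ∀ u ∈ verts (a1, b1, c1), ∀ v ∈ verts (a2, b2, c2), pos u ≠ pos v := by
      intro u hu v hv h
      have := hpos h
      subst this
      exact (Finset.disjoint_left.mp hdis hu) hv
    have e1 : pos a1 ≠ pos a2 := hne' _ (by simp [verts]) _ (by simp [verts])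
    have e2 : pos b1 ≠ pos b2 := hne' _ (by simp [verts]) _ (by simp [verts])
    have e3 : pos c1 ≠ pos c2 := hne' _ (by simp [verts]) _ (by simp [verts])
    have e4 : pos a1 ≠ pos b2 := hne' _ (by simp [verts]) _ (by simp [verts])
    have e5 : pos b1 ≠ pos a2 := hne' _ (by simp [verts]) _ (by simp [verts])
    have e6 : pos b1 ≠ pos c2 := hne' _ (by simp [verts]) _ (by simp [verts])
    have e7 : pos c1 ≠ pos b2 := hne' _ (by simp [verts]) _ (by simp [verts])
    have n1 : ¬ (pos a1 < pos a2 ∧ pos a2 < pos b1 ∧ pos b1 < pos b2) := fun h =>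
      hNC a1 b1 a2 b2 g1 g1' h.1 h.2.1 h.2.2 f1
    have n2 : ¬ (pos a2 < pos a1 ∧ pos a1 < pos b2 ∧ pos b2 < pos b1) := fun h =>
      hNC a2 b2 a1 b1 g1' g1 h.1 h.2.1 h.2.2 f1.symm
    have n3 : ¬ (pos b1 < pos b2 ∧ pos b2 < pos c1 ∧ pos c1 < pos c2) := fun h =>
      hNC b1 c1 b2 c2 g2 g2' h.1 h.2.1 h.2.2 f2
    have n4 : ¬ (pos b2 < pos b1 ∧ pos b1 < pos c2 ∧ pos c2 < pos c1) := fun h =>
      hNC b2 c2 b1 c1 g2' g2 h.1 h.2.1 h.2.2 f2.symm
    have n5 : ¬ (pos a1 < pos a2 ∧ pos a2 < pos c1 ∧ pos c1 < pos c2) := fun h =>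
      hNC a1 c1 a2 c2 g3 g3' h.1 h.2.1 h.2.2 f3
    have n6 : ¬ (pos a2 < pos a1 ∧ pos a1 < pos c2 ∧ pos c2 < pos c1) := fun h =>
      hNC a2 c2 a1 c1 g3' g3 h.1 h.2.1 h.2.2 f3.symm
    omega
  have hcard := Finset.card_le_card_of_injOn (t := (Finset.univ : Finset
    (Bool × Fin s × Fin s × Fin s))) _ (fun _ _ => Finset.mem_coe.mpr (Finset.mem_univ _)) hinj
  refine hcard.trans (le_of_eq ?_)
  simp only [Finset.card_univ, Fintype.card_prod, Fintype.card_bool, Fintype.card_fin]
  ring

lemma exists_hitting (hpos : Function.Injective pos) {s : ℕ} {page : Sym2 W → Fin s}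
    (hNC : ∀ u v x y : W, G.Adj u v → G.Adj x y → pos u < pos x → pos x < pos v →
      pos v < pos y → page s(u, v) ≠ page s(x, y)) (x y : ℕ) :
    ∃ B : Finset W, B.card ≤ 6 * s ^ 3 ∧ ∀ t, Tri G pos x y t → ∃ w ∈ verts t, w ∈ B := by
  classical
  let F : Finset (Finset (W × W × W)) := Finset.univ.filter (fun T =>
    (∀ t ∈ T, Tri G pos x y t) ∧ ∀ t ∈ T, ∀ t' ∈ T, t ≠ t' → Disjoint (verts t) (verts t'))
  have hF : F.Nonempty := ⟨∅, by simp [F]⟩
  obtain ⟨T, hTF, hmax⟩ := Finset.exists_max_image F Finset.card hF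
  have hT := (Finset.mem_filter.mp hTF).2
  refine ⟨T.biUnion verts, ?_, ?_⟩
  · calc (T.biUnion verts).card ≤ ∑ t ∈ T, (verts t).card := Finset.card_biUnion_le
      _ ≤ ∑ _t ∈ T, 3 := Finset.sum_le_sum (fun t _ => Finset.card_le_three)
      _ = 3 * T.card := by rw [Finset.sum_const, smul_eq_mul, mul_comm]
      _ ≤ 3 * (2 * s ^ 3) := Nat.mul_le_mul_left _ (card_family hpos hNC x y T hT.1 hT.2)
      _ = 6 * s ^ 3 := by ring
  · intro t ht
    by_contra hcon
    push Not at hcon
    have hdis : ∀ t' ∈ T, Disjoint (verts t) (verts t') := by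
      intro t' ht'
      rw [Finset.disjoint_left]
      intro w hw hw'
      exact hcon w hw (Finset.mem_biUnion.mpr ⟨t', ht', hw'⟩)
    have htT : t ∉ T := by
      intro h
      have := hdis t h
      rw [disjoint_self] at this
      have h2 : t.1 ∈ verts t := by simp [verts]
      rw [this] at h2
      simp at h2
    have hins : insert t T ∈ F := by
      refine Finset.mem_filter.mpr ⟨Finset.mem_univ _, ?_, ?_⟩
      · intro t' ht'
        rcases Finset.mem_insert.mp ht' with h | h
        · rw [h]; exact ht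
        · exact hT.1 t' h
      · intro t1 h1 t2 h2 hne
        rcases Finset.mem_insert.mp h1 with h1 | h1
        · rcases Finset.mem_insert.mp h2 with h2 | h2
          · exact absurd (h1.trans h2.symm) hne
          · rw [h1]; exact hdis t2 h2
        · rcases Finset.mem_insert.mp h2 with h2 | h2
          · rw [h2]; exact (hdis t1 h1).symm
          · exact hT.2 t1 h1 t2 h2 hne
    have := hmax _ hins
    rw [Finset.card_insert_of_notMem htT] at this
    omega

lemma closed_of_hitting (hpos : Function.Injective pos) {x y : ℕ} {B : Finset W}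
    (hB : ∀ t, Tri G pos x y t → ∃ w ∈ verts t, w ∈ B) {u v w : W}
    (huv : G.Adj u v) (hvw : G.Adj v w) (huw : G.Adj u w) (hu : u ∉ B) (hv : v ∉ B) (hw : w ∉ B) :
    on x y (pos u) (pos v) + on x y (pos v) (pos w) + on x y (pos u) (pos w) = 0 := by
  have key : ∀ a b c : W, G.Adj a b → G.Adj b c → G.Adj a c → a ∉ B → b ∉ B → c ∉ B →
      pos a < pos b → pos b < pos c →
      on x y (pos a) (pos b) + on x y (pos b) (pos c) + on x y (pos a) (pos c) = 0 := by
    intro a b c hab hbc hac ha hb hc h1 h2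
    by_contra hne
    obtain ⟨z, hz1, hz2⟩ := hB (a, b, c) ⟨hab, hbc, hac, h1, h2, on_sum h1 h2 hne⟩
    simp only [verts, Finset.mem_insert, Finset.mem_singleton] at hz1
    rcases hz1 with rfl | rfl | rfl
    · exact ha hz2
    · exact hb hz2
    · exact hc hz2
  have n1 : pos u ≠ pos v := fun h => huv.ne (hpos h)
  have n2 : pos v ≠ pos w := fun h => hvw.ne (hpos h)
  have n3 : pos u ≠ pos w := fun h => huw.ne (hpos h)
  have c1 := on_comm x y (pos u) (pos v)
  have c2 := on_comm x y (pos v) (pos w)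
  have c3 := on_comm x y (pos u) (pos w)
  rcases lt_or_gt_of_ne n1 with h1 | h1 <;> rcases lt_or_gt_of_ne n2 with h2 | h2 <;>
    rcases lt_or_gt_of_ne n3 with h3 | h3
  · exact key u v w huv hvw huw hu hv hw h1 h2
  · omega
  · have := key u w v huw hvw.symm huv hu hw hv h3 h2
    rw [← this, c2]; ring
  · have := key w u v huw.symm huv hvw.symm hw hu hv h3 h1
    rw [← this, c2, c3]; ring
  · have := key v u w huv.symm huw hvw hv hu hw h1 h3
    rw [← this, c1]; ring
  · have := key v w u hvw huw.symm huv.symm hv hw hu h2 h3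
    rw [← this, c1, c3]; ring
  · omega
  · have := key w v u hvw.symm huv.symm huw.symm hw hv hu h2 h1
    rw [← this, c1, c2, c3]; ring

lemma exists_change_y (hpos : Function.Injective pos) {s : ℕ} {page : Sym2 W → Fin s}
    (hNC : ∀ u v x y : W, G.Adj u v → G.Adj x y → pos u < pos x → pos x < pos v →
      pos v < pos y → page s(u, v) ≠ page s(x, y)) (x y : ℕ) :
    ∃ C : Finset W, C.card ≤ 2 * s ∧ ∀ u v, G.Adj u v → u ∉ C → v ∉ C →
      on x y (pos u) (pos v) = on x (y + 1) (pos u) (pos v) := by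
  classical
  let F : Finset (W × W) := Finset.univ.filter (fun e =>
    G.Adj e.1 e.2 ∧ pos e.1 ≤ x ∧ x < pos e.2 ∧ pos e.2 = pos e.1 + (y + 1))
  have hFcard : F.card ≤ s := by
    have hinj : Set.InjOn (fun e : W × W => page s(e.1, e.2)) F := by
      intro e he e' he' hf
      obtain ⟨a, c⟩ := e
      obtain ⟨a', c'⟩ := e'
      obtain ⟨g, h1, h2, h3⟩ := (Finset.mem_filter.mp (Finset.mem_coe.mp he)).2
      obtain ⟨g', h1', h2', h3'⟩ := (Finset.mem_filter.mp (Finset.mem_coe.mp he')).2
      simp only at g h1 h2 h3 g' h1' h2' h3' hf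
      rcases lt_trichotomy (pos a) (pos a') with h | h | h
      · exact absurd hf (hNC a c a' c' g g' h (by omega) (by omega))
      · have h5 : pos c = pos c' := by omega
        rw [hpos h, hpos h5]
      · exact absurd hf.symm (hNC a' c' a c g' g h (by omega) (by omega))
    have := Finset.card_le_card_of_injOn (t := (Finset.univ : Finset (Fin s))) _
      (fun _ _ => Finset.mem_coe.mpr (Finset.mem_univ _)) hinj
    simpa using this
  refine ⟨F.image Prod.fst ∪ F.image Prod.snd, ?_, ?_⟩
  · calc (F.image Prod.fst ∪ F.image Prod.snd).card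
        ≤ (F.image Prod.fst).card + (F.image Prod.snd).card := Finset.card_union_le _ _
      _ ≤ F.card + F.card := Nat.add_le_add Finset.card_image_le Finset.card_image_le
      _ ≤ 2 * s := by omega
  · intro u v huv hu hv
    have key : ∀ a c : W, G.Adj a c → a ∉ F.image Prod.fst ∪ F.image Prod.snd →
        pos a < pos c → on x y (pos a) (pos c) = on x (y + 1) (pos a) (pos c) := by
      intro a c hac ha hlt
      have hnot : ¬ (pos a ≤ x ∧ x < pos c ∧ pos c = pos a + (y + 1)) := by
        intro h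
        apply ha
        rw [Finset.mem_union]
        left
        exact Finset.mem_image.mpr ⟨(a, c), Finset.mem_filter.mpr ⟨Finset.mem_univ _, hac, h.1,
          h.2.1, h.2.2⟩, rfl⟩
      unfold on
      rw [min_eq_left hlt.le, max_eq_right hlt.le]
      have : (pos a ≤ x ∧ x < pos c ∧ y < pos c - pos a) ↔
          (pos a ≤ x ∧ x < pos c ∧ y + 1 < pos c - pos a) := by omega
      simp only [this]
    have n1 : pos u ≠ pos v := fun h => huv.ne (hpos h)
    rcases lt_or_gt_of_ne n1 with h | h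
    · exact key u v huv hu h
    · rw [on_comm x y, on_comm x (y + 1)]
      exact key v u huv.symm hv h

lemma exists_change_x (hpos : Function.Injective pos) (x : ℕ) :
    ∃ C : Finset W, C.card ≤ 1 ∧ (∀ u, u ∉ C → pos u ≠ x + 1) := by
  classical
  refine ⟨Finset.univ.filter (fun u => pos u = x + 1), ?_, ?_⟩
  · rw [Finset.card_le_one]
    intro a ha b hb
    exact hpos ((Finset.mem_filter.mp ha).2.trans (Finset.mem_filter.mp hb).2.symm)
  · intro u hu h
    exact hu (Finset.mem_filter.mpr ⟨Finset.mem_univ _, h⟩)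

lemma on_succ_x {x y p q : ℕ} (hp : p ≠ x + 1) (hq : q ≠ x + 1) :
    on x y p q = on (x + 1) y p q := by
  unfold on
  have : (min p q ≤ x ∧ x < max p q ∧ y < max p q - min p q) ↔
      (min p q ≤ x + 1 ∧ x + 1 < max p q ∧ y < max p q - min p q) := by omega
  simp only [this]

end general

/-! ### Prefix sums of cochains on the cubic grid -/

lemma add_self2 (a : ZMod 2) : a + a = 0 := CharTwo.add_self_eq_zero a

lemma tele (u : ℕ → ZMod 2) (n : ℕ) : ∑ i ∈ range n, (u i + u (i + 1)) = u 0 + u n := by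
  induction n with
  | zero => simp [add_self2]
  | succ n ih =>
    rw [Finset.sum_range_succ, ih]
    have := add_self2 (u n)
    linear_combination this

section prefixSums

variable (h1 h2 h3 : ℕ → ℕ → ℕ → ZMod 2)

/-- sums along an L-shaped path in the plane `z` -/
def S (a b z : ℕ) : ZMod 2 := ∑ i ∈ range a, h1 i 0 z + ∑ j ∈ range b, h2 a j z

/-- sums along a vertical line -/
def V (a b z : ℕ) : ZMod 2 := ∑ k ∈ range z, h3 a b k

/-- the sum of both -/
def kap (a b z : ℕ) : ZMod 2 := S h1 h2 a b z + V h3 a b z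

/-- the plane `z` is closed -/
def ClosedZ (m z : ℕ) : Prop := ∀ x y, x < m → y < m →
  h1 x y z + h2 (x + 1) y z + h1 x (y + 1) z + h2 x y z = 0

/-- the plane `y = b` is closed -/
def ClosedY (m b : ℕ) : Prop := ∀ x z, x < m → z < m →
  h1 x b z + h3 (x + 1) b z + h1 x b (z + 1) + h3 x b z = 0

/-- the plane `x = a` is closed -/
def ClosedX (m a : ℕ) : Prop := ∀ y z, y < m → z < m →
  h2 a y z + h3 a (y + 1) z + h2 a y (z + 1) + h3 a y z = 0

variable {h1 h2 h3}

lemma S_succ_y (x y z : ℕ) : S h1 h2 x (y + 1) z = S h1 h2 x y z + h2 x y z := by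
  unfold S
  rw [Finset.sum_range_succ, add_assoc]

lemma V_succ (x y z : ℕ) : V h3 x y (z + 1) = V h3 x y z + h3 x y z := by
  unfold V
  rw [Finset.sum_range_succ]

lemma S_succ_x {m z : ℕ} (hz : ClosedZ h1 h2 m z) {x : ℕ} (hx : x < m) :
    ∀ y, y ≤ m → S h1 h2 (x + 1) y z + S h1 h2 x y z = h1 x y z := by
  intro y
  induction y with
  | zero =>
    intro _
    unfold S
    simp only [Finset.range_zero, Finset.sum_empty, add_zero, Finset.sum_range_succ]
    have := add_self2 (∑ i ∈ range x, h1 i 0 z)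
    linear_combination this
  | succ y ih =>
    intro hy
    rw [S_succ_y, S_succ_y]
    have e1 := ih (by omega)
    have e2 := hz x y hx (by omega)
    have e3 := add_self2 (h1 x y z)
    have e4 := add_self2 (h1 x (y + 1) z)
    linear_combination e1 + e2 - e3 - e4 + e3 - e1 + e1

lemma V_succ_x {m b : ℕ} (hb : ClosedY h1 h3 m b) {x : ℕ} (hx : x < m) :
    ∀ z, z ≤ m → V h3 (x + 1) b z + V h3 x b z = h1 x b z + h1 x b 0 := by
  intro z
  induction z with
  | zero =>
    intro _
    unfold V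
    simp only [Finset.range_zero, Finset.sum_empty, add_zero]
    exact (add_self2 _).symm
  | succ z ih =>
    intro hz
    rw [V_succ, V_succ]
    have e1 := ih (by omega)
    have e2 := hb x z hx (by omega)
    have e3 := add_self2 (h1 x b z)
    have e4 := add_self2 (h1 x b (z + 1))
    linear_combination e1 + e2 - e4

lemma V_succ_y {m a : ℕ} (ha : ClosedX h2 h3 m a) {y : ℕ} (hy : y < m) :
    ∀ z, z ≤ m → V h3 a (y + 1) z + V h3 a y z = h2 a y z + h2 a y 0 := by
  intro z
  induction z with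
  | zero =>
    intro _
    unfold V
    simp only [Finset.range_zero, Finset.sum_empty, add_zero]
    exact (add_self2 _).symm
  | succ z ih =>
    intro hz
    rw [V_succ, V_succ]
    have e1 := ih (by omega)
    have e2 := ha y z hy (by omega)
    have e4 := add_self2 (h2 a y (z + 1))
    linear_combination e1 + e2 - e4

lemma kap_x {m b z : ℕ} (hZ : ClosedZ h1 h2 m z) (hY : ClosedY h1 h3 m b) (hb : b ≤ m)
    (hz : z ≤ m) : ∀ a, a ≤ m → kap h1 h2 h3 a b z + kap h1 h2 h3 0 b z =
      ∑ i ∈ range a, h1 i b 0 := by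
  intro a
  induction a with
  | zero =>
    intro _
    simp [add_self2]
  | succ a ih =>
    intro ha
    rw [Finset.sum_range_succ, ← ih (by omega)]
    unfold kap
    have e1 := S_succ_x hZ (x := a) (by omega) b hb
    have e2 := V_succ_x hY (x := a) (by omega) z hz
    have e3 := add_self2 (h1 a b z)
    have e4 := add_self2 (S h1 h2 a b z)
    have e5 := add_self2 (V h3 a b z)
    linear_combination e1 + e2 + e3 - e4 - e5

lemma kap_y {m a z : ℕ} (hX : ClosedX h2 h3 m a) (hz : z ≤ m) :
    ∀ b, b ≤ m → kap h1 h2 h3 a b z + kap h1 h2 h3 a 0 z = ∑ j ∈ range b, h2 a j 0 := by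
  intro b
  induction b with
  | zero =>
    intro _
    simp [add_self2]
  | succ b ih =>
    intro hb
    rw [Finset.sum_range_succ, ← ih (by omega)]
    unfold kap
    have e1 := S_succ_y (h1 := h1) (h2 := h2) a b z
    have e2 := V_succ_y hX (y := b) (by omega) z hz
    have e3 := add_self2 (h2 a b z)
    have e5 := add_self2 (V h3 a b z)
    linear_combination e1 + e2 + e3 - e5

/-- The difference of `kap` at two points does not depend on the height. -/
lemma transport {m a b z z' : ℕ} (hX : ClosedX h2 h3 m a) (hY : ClosedY h1 h3 m b)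
    (hZ : ClosedZ h1 h2 m z) (hZ' : ClosedZ h1 h2 m z') (ha : a ≤ m) (hb : b ≤ m) (hz : z ≤ m)
    (hz' : z' ≤ m) :
    kap h1 h2 h3 0 b z + kap h1 h2 h3 a 0 z = kap h1 h2 h3 0 b z' + kap h1 h2 h3 a 0 z' := by
  have e1 := kap_x hZ hY hb hz a ha
  have e2 := kap_x hZ' hY hb hz' a ha
  have e3 := kap_y (h1 := h1) hX hz b hb
  have e4 := kap_y (h1 := h1) hX hz' b hb
  have e5 := add_self2 (kap h1 h2 h3 a b z)
  have e6 := add_self2 (kap h1 h2 h3 a b z')
  linear_combination e1 - e2 + e3 - e4 - e5 + e6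

lemma kap_congr {h1' h2' h3' : ℕ → ℕ → ℕ → ZMod 2} {m a z : ℕ} (ha : a ≤ m) (hz : z ≤ m)
    (e1 : ∀ x y, x < m → y ≤ m → h1 x y z = h1' x y z)
    (e3 : ∀ y k, y ≤ m → k < m → h3 a y k = h3' a y k) :
    kap h1 h2 h3 a 0 z = kap h1' h2' h3' a 0 z := by
  unfold kap S V
  simp only [Finset.range_zero, Finset.sum_empty, add_zero]
  congr 1
  · refine Finset.sum_congr rfl fun i hi => ?_
    rw [Finset.mem_range] at hi
    exact e1 i 0 (by omega) (by omega)
  · refine Finset.sum_congr rfl fun k hk => ?_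
    rw [Finset.mem_range] at hk
    exact e3 0 k (by omega) (by omega)

end prefixSums

/-- The boundary sum of a closed transition function vanishes. -/
lemma boundary_sum (f g : ℕ → ℕ → ZMod 2) (N : ℕ)
    (h : ∀ x y, x < N → y < N → f x y + g (x + 1) y + f x (y + 1) + g x y = 0) :
    ∑ x ∈ range N, (f x 0 + f x N) + ∑ y ∈ range N, (g 0 y + g N y) = 0 := by
  have e1 : ∑ x ∈ range N, (f x 0 + f x N) =
      ∑ x ∈ range N, ∑ y ∈ range N, (f x y + f x (y + 1)) :=
    Finset.sum_congr rfl fun x _ => (tele (fun y => f x y) N).symm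
  have e2 : ∑ y ∈ range N, (g 0 y + g N y) =
      ∑ x ∈ range N, ∑ y ∈ range N, (g x y + g (x + 1) y) := by
    rw [Finset.sum_comm]
    exact Finset.sum_congr rfl fun y _ => (tele (fun x => g x y) N).symm
  rw [e1, e2, ← Finset.sum_add_distrib]
  refine Finset.sum_eq_zero fun x hx => ?_
  rw [← Finset.sum_add_distrib]
  refine Finset.sum_eq_zero fun y hy => ?_
  rw [Finset.mem_range] at hx hy
  have := h x y hx hy
  linear_combination this

/-! ### The triangulated grid -/

/-- The vertices of the grid. -/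
abbrev Cube (m : ℕ) : Type := Fin (m + 1) × Fin (m + 1) × Fin (m + 1)

/-- Every coordinate increases by zero or one, and one or two coordinates increase. -/
def Step {m : ℕ} (u v : Cube m) : Prop :=
  (v.1.val = u.1.val ∨ v.1.val = u.1.val + 1) ∧
  (v.2.1.val = u.2.1.val ∨ v.2.1.val = u.2.1.val + 1) ∧
  (v.2.2.val = u.2.2.val ∨ v.2.2.val = u.2.2.val + 1) ∧
  u.1.val + u.2.1.val + u.2.2.val < v.1.val + v.2.1.val + v.2.2.val ∧
  v.1.val + v.2.1.val + v.2.2.val ≤ u.1.val + u.2.1.val + u.2.2.val + 2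

/-- The three-dimensional grid with a diagonal in every unit square. -/
def grid (m : ℕ) : SimpleGraph (Cube m) where
  Adj u v := Step u v ∨ Step v u
  symm := ⟨fun _ _ h => h.symm⟩
  loopless := ⟨fun u h => by
    rcases h with h | h <;> exact absurd h.2.2.2.1 (lt_irrefl _)⟩

/-- The point with given coordinates. -/
def pt (m i j k : ℕ) : Cube m := (Fin.ofNat (m + 1) i, Fin.ofNat (m + 1) j, Fin.ofNat (m + 1) k)

lemma pt_fst {m i j k : ℕ} (hi : i ≤ m) : (pt m i j k).1.val = i :=
  Nat.mod_eq_of_lt (Nat.lt_succ_of_le hi)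

lemma pt_snd {m i j k : ℕ} (hj : j ≤ m) : (pt m i j k).2.1.val = j :=
  Nat.mod_eq_of_lt (Nat.lt_succ_of_le hj)

lemma pt_thd {m i j k : ℕ} (hk : k ≤ m) : (pt m i j k).2.2.val = k :=
  Nat.mod_eq_of_lt (Nat.lt_succ_of_le hk)

lemma adj_pt {m i j k i' j' k' : ℕ} (hi : i' ≤ m) (hj : j' ≤ m) (hk : k' ≤ m)
    (h1 : i' = i ∨ i' = i + 1) (h2 : j' = j ∨ j' = j + 1) (h3 : k' = k ∨ k' = k + 1)
    (h4 : i + j + k < i' + j' + k') (h5 : i' + j' + k' ≤ i + j + k + 2) :
    (grid m).Adj (pt m i j k) (pt m i' j' k') := by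
  left
  unfold Step
  rw [pt_fst hi, pt_snd hj, pt_thd hk, pt_fst (by omega), pt_snd (by omega), pt_thd (by omega)]
  exact ⟨h1, h2, h3, h4, h5⟩

lemma exists_avoid {m : ℕ} (B : Finset (Cube m)) (hB : B.card ≤ m) (f : Cube m → ℕ) :
    ∃ a, a ≤ m ∧ ∀ w ∈ B, f w ≠ a := by
  classical
  have h1 : (B.image f).card < (Finset.range (m + 1)).card := by
    rw [Finset.card_range]
    exact Nat.lt_succ_of_le (Finset.card_image_le.trans hB)
  obtain ⟨a, ha, ha'⟩ := Finset.exists_mem_notMem_of_card_lt_card h1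
  refine ⟨a, Nat.lt_succ_iff.mp (Finset.mem_range.mp ha), fun w hw h => ha' ?_⟩
  exact Finset.mem_image.mpr ⟨w, hw, h⟩

section noStack

variable {m : ℕ} {pos : Cube m → ℕ}

lemma square (hpos : Function.Injective pos) {x y : ℕ} {B : Finset (Cube m)}
    (hB : ∀ t, Tri (grid m) pos x y t → ∃ w ∈ verts t, w ∈ B) {u v w t : Cube m}
    (huv : (grid m).Adj u v) (hvw : (grid m).Adj v w) (huw : (grid m).Adj u w)
    (hut : (grid m).Adj u t) (htw : (grid m).Adj t w)
    (hu : u ∉ B) (hv : v ∉ B) (hw : w ∉ B) (ht : t ∉ B) :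
    on x y (pos u) (pos v) + on x y (pos v) (pos w) + on x y (pos t) (pos w) +
      on x y (pos u) (pos t) = 0 := by
  have e1 := closed_of_hitting hpos hB huv hvw huw hu hv hw
  have e2 := closed_of_hitting hpos hB hut htw huw hu ht hw
  have e3 := add_self2 (on x y (pos u) (pos w))
  linear_combination e1 + e2 - e3

/-- The state of the edges in direction `x`. -/
def g1 (pos : Cube m → ℕ) (x y i j k : ℕ) : ZMod 2 :=
  on x y (pos (pt m i j k)) (pos (pt m (i + 1) j k))

/-- The state of the edges in direction `y`. -/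
def g2 (pos : Cube m → ℕ) (x y i j k : ℕ) : ZMod 2 :=
  on x y (pos (pt m i j k)) (pos (pt m i (j + 1) k))

/-- The state of the edges in direction `z`. -/
def g3 (pos : Cube m → ℕ) (x y i j k : ℕ) : ZMod 2 :=
  on x y (pos (pt m i j k)) (pos (pt m i j (k + 1)))

lemma closedZ (hpos : Function.Injective pos) {x y : ℕ} {B : Finset (Cube m)}
    (hB : ∀ t, Tri (grid m) pos x y t → ∃ w ∈ verts t, w ∈ B) {z : ℕ} (hz : z ≤ m)
    (hav : ∀ w ∈ B, w.2.2.val ≠ z) : ClosedZ (g1 pos x y) (g2 pos x y) m z := by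
  intro i j hi hj
  have hn : ∀ i j, pt m i j z ∉ B := fun i j h => hav _ h (pt_thd hz)
  exact square hpos hB
    (adj_pt (by omega) (by omega) hz (by omega) (by omega) (by omega) (by omega) (by omega))
    (adj_pt (by omega) (by omega) hz (by omega) (by omega) (by omega) (by omega) (by omega))
    (adj_pt (by omega) (by omega) hz (by omega) (by omega) (by omega) (by omega) (by omega))
    (adj_pt (by omega) (by omega) hz (by omega) (by omega) (by omega) (by omega) (by omega))
    (adj_pt (by omega) (by omega) hz (by omega) (by omega) (by omega) (by omega) (by omega))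
    (hn _ _) (hn _ _) (hn _ _) (hn _ _)

lemma closedY (hpos : Function.Injective pos) {x y : ℕ} {B : Finset (Cube m)}
    (hB : ∀ t, Tri (grid m) pos x y t → ∃ w ∈ verts t, w ∈ B) {b : ℕ} (hb : b ≤ m)
    (hav : ∀ w ∈ B, w.2.1.val ≠ b) : ClosedY (g1 pos x y) (g3 pos x y) m b := by
  intro i k hi hk
  have hn : ∀ i k, pt m i b k ∉ B := fun i k h => hav _ h (pt_snd hb)
  exact square hpos hB
    (adj_pt (by omega) hb (by omega) (by omega) (by omega) (by omega) (by omega) (by omega))
    (adj_pt (by omega) hb (by omega) (by omega) (by omega) (by omega) (by omega) (by omega))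
    (adj_pt (by omega) hb (by omega) (by omega) (by omega) (by omega) (by omega) (by omega))
    (adj_pt (by omega) hb (by omega) (by omega) (by omega) (by omega) (by omega) (by omega))
    (adj_pt (by omega) hb (by omega) (by omega) (by omega) (by omega) (by omega) (by omega))
    (hn _ _) (hn _ _) (hn _ _) (hn _ _)

lemma closedX (hpos : Function.Injective pos) {x y : ℕ} {B : Finset (Cube m)}
    (hB : ∀ t, Tri (grid m) pos x y t → ∃ w ∈ verts t, w ∈ B) {a : ℕ} (ha : a ≤ m)
    (hav : ∀ w ∈ B, w.1.val ≠ a) : ClosedX (g2 pos x y) (g3 pos x y) m a := by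
  intro j k hj hk
  have hn : ∀ j k, pt m a j k ∉ B := fun j k h => hav _ h (pt_fst ha)
  exact square hpos hB
    (adj_pt ha (by omega) (by omega) (by omega) (by omega) (by omega) (by omega) (by omega))
    (adj_pt ha (by omega) (by omega) (by omega) (by omega) (by omega) (by omega) (by omega))
    (adj_pt ha (by omega) (by omega) (by omega) (by omega) (by omega) (by omega) (by omega))
    (adj_pt ha (by omega) (by omega) (by omega) (by omega) (by omega) (by omega) (by omega))
    (adj_pt ha (by omega) (by omega) (by omega) (by omega) (by omega) (by omega) (by omega))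
    (hn _ _) (hn _ _) (hn _ _) (hn _ _)

/-- The function `kap` at the corner line, as a function of the height. -/
def kk (pos : Cube m → ℕ) (x y b z : ℕ) : ZMod 2 :=
  kap (g1 pos x y) (g2 pos x y) (g3 pos x y) 0 b z

/-- Between two parameters for which few edges change, the functions `kk` differ by a constant. -/
lemma exists_sigma (hpos : Function.Injective pos) {x y x' y' b b' : ℕ}
    {B B' C : Finset (Cube m)}
    (hB : ∀ t, Tri (grid m) pos x y t → ∃ w ∈ verts t, w ∈ B)
    (hB' : ∀ t, Tri (grid m) pos x' y' t → ∃ w ∈ verts t, w ∈ B')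
    (hC : ∀ u v, (grid m).Adj u v → u ∉ C → v ∉ C →
      on x y (pos u) (pos v) = on x' y' (pos u) (pos v))
    (hb : b ≤ m) (hbB : ∀ w ∈ B, w.2.1.val ≠ b)
    (hb' : b' ≤ m) (hbB' : ∀ w ∈ B', w.2.1.val ≠ b')
    (hcard : B.card + B'.card + C.card ≤ m) :
    ∃ σ : ZMod 2, ∀ z, z ≤ m → (∀ w ∈ B, w.2.2.val ≠ z) → (∀ w ∈ B', w.2.2.val ≠ z) →
      (∀ w ∈ C, w.2.2.val ≠ z) → kk pos x y b z + kk pos x' y' b' z = σ := by
  classical
  have hcard' : (B ∪ B' ∪ C).card ≤ m := by
    have e1 := Finset.card_union_le (B ∪ B') C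
    have e2 := Finset.card_union_le B B'
    omega
  obtain ⟨a, ha, hav⟩ := exists_avoid (B ∪ B' ∪ C) hcard' (fun w => w.1.val)
  obtain ⟨z0, hz0, hzav⟩ := exists_avoid (B ∪ B' ∪ C) hcard' (fun w => w.2.2.val)
  have haB : ∀ w ∈ B, w.1.val ≠ a := fun w hw => hav w (by simp [hw])
  have haB' : ∀ w ∈ B', w.1.val ≠ a := fun w hw => hav w (by simp [hw])
  have haC : ∀ w ∈ C, w.1.val ≠ a := fun w hw => hav w (by simp [hw])
  have hzB : ∀ w ∈ B, w.2.2.val ≠ z0 := fun w hw => hzav w (by simp [hw])
  have hzB' : ∀ w ∈ B', w.2.2.val ≠ z0 := fun w hw => hzav w (by simp [hw])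
  have hzC : ∀ w ∈ C, w.2.2.val ≠ z0 := fun w hw => hzav w (by simp [hw])
  have hcon : ∀ z, z ≤ m → (∀ w ∈ C, w.2.2.val ≠ z) →
      kap (g1 pos x y) (g2 pos x y) (g3 pos x y) a 0 z =
        kap (g1 pos x' y') (g2 pos x' y') (g3 pos x' y') a 0 z := by
    intro z hz hzC
    refine kap_congr (m := m) ha hz ?_ ?_
    · intro i j hi hj
      exact hC _ _ (adj_pt (by omega) (by omega) hz (by omega) (by omega) (by omega) (by omega)
        (by omega)) (fun h => hzC _ h (pt_thd hz)) (fun h => hzC _ h (pt_thd hz))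
    · intro j k hj hk
      exact hC _ _ (adj_pt ha (by omega) (by omega) (by omega) (by omega) (by omega) (by omega)
        (by omega)) (fun h => haC _ h (pt_fst ha)) (fun h => haC _ h (pt_fst ha))
  refine ⟨kk pos x y b z0 + kk pos x' y' b' z0, fun z hz h1 h2 h3 => ?_⟩
  have e1 := transport (closedX hpos hB ha haB) (closedY hpos hB hb hbB) (closedZ hpos hB hz h1)
    (closedZ hpos hB hz0 hzB) ha hb hz hz0
  have e2 := transport (closedX hpos hB' ha haB') (closedY hpos hB' hb' hbB')
    (closedZ hpos hB' hz h2) (closedZ hpos hB' hz0 hzB') ha hb' hz hz0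
  have e3 := hcon z hz h3
  have e4 := hcon z0 hz0 hzC
  unfold kk
  rw [e3, e4] at e1
  have e5 := add_self2 (kap (g1 pos x' y') (g2 pos x' y') (g3 pos x' y') a 0 z)
  have e6 := add_self2 (kap (g1 pos x' y') (g2 pos x' y') (g3 pos x' y') a 0 z0)
  linear_combination e1 + e2 - e5 + e6

lemma on_zero_left {y p q : ℕ} (hp : 1 ≤ p) (hq : 1 ≤ q) : on 0 y p q = 0 := by
  unfold on
  rw [if_neg]
  omega

lemma on_top_left {N y p q : ℕ} (hp : p ≤ N) (hq : q ≤ N) : on N y p q = 0 := by
  unfold on
  rw [if_neg]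
  omega

lemma on_top_right {N x p q : ℕ} (hp : p ≤ N) (hq : q ≤ N) : on x N p q = 0 := by
  unfold on
  rw [if_neg]
  omega

/-- The indicator function of the positions up to `x`. -/
def low (x p : ℕ) : ZMod 2 := if p ≤ x then 1 else 0

lemma on_zero_right (x p q : ℕ) : on x 0 p q = low x p + low x q := by
  unfold on low
  split_ifs <;> first | (exfalso; omega) | decide

lemma kk_zero {x y b z : ℕ} (h : ∀ u v : Cube m, on x y (pos u) (pos v) = 0) :
    kk pos x y b z = 0 := by
  unfold kk kap S V g1 g2 g3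
  simp only [h, Finset.sum_const_zero, add_zero]

lemma kk_bottom (x b z : ℕ) :
    kk pos x 0 b z = low x (pos (pt m 0 0 z)) + low x (pos (pt m 0 b 0)) := by
  unfold kk kap S V g1 g2 g3
  simp only [on_zero_right, Finset.range_zero, Finset.sum_empty, zero_add]
  rw [tele (fun j => low x (pos (pt m 0 j z))), tele (fun k => low x (pos (pt m 0 b k)))]
  have := add_self2 (low x (pos (pt m 0 b z)))
  linear_combination this

theorem no_stack {s N : ℕ} (hm : 24 * s ^ 3 + 4 * s + 1 ≤ m) (hpos : Function.Injective pos)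
    (hpos1 : ∀ w, 1 ≤ pos w) (hposN : ∀ w, pos w ≤ N) (page : Sym2 (Cube m) → Fin s)
    (hNC : ∀ u v x y : Cube m, (grid m).Adj u v → (grid m).Adj x y → pos u < pos x →
      pos x < pos v → pos v < pos y → page s(u, v) ≠ page s(x, y)) : False := by
  classical
  choose B hBcard hB using fun x y => exists_hitting (G := grid m) hpos hNC x y
  choose U hUcard hU using fun x y => exists_change_y (G := grid m) hpos hNC x y
  choose H hHcard hH using fun x => exists_change_x hpos x
  choose b hb hbB using fun x y => exists_avoid (B x y) (by have := hBcard x y; omega)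
    (fun w => w.2.1.val)
  have hsh : ∀ x y, ∃ σ : ZMod 2, ∀ z, z ≤ m → (∀ w ∈ B x y, w.2.2.val ≠ z) →
      (∀ w ∈ B (x + 1) y, w.2.2.val ≠ z) → (∀ w ∈ H x, w.2.2.val ≠ z) →
      kk pos x y (b x y) z + kk pos (x + 1) y (b (x + 1) y) z = σ := by
    intro x y
    refine exists_sigma hpos (hB x y) (hB (x + 1) y) ?_ (hb x y) (hbB x y) (hb (x + 1) y)
      (hbB (x + 1) y) ?_
    · intro u v _ hu hv
      exact on_succ_x (hH x u hu) (hH x v hv)
    · have e1 := hBcard x y
      have e2 := hBcard (x + 1) y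
      have e3 := hHcard x
      omega
  have hsv : ∀ x y, ∃ σ : ZMod 2, ∀ z, z ≤ m → (∀ w ∈ B x y, w.2.2.val ≠ z) →
      (∀ w ∈ B x (y + 1), w.2.2.val ≠ z) → (∀ w ∈ U x y, w.2.2.val ≠ z) →
      kk pos x y (b x y) z + kk pos x (y + 1) (b x (y + 1)) z = σ := by
    intro x y
    refine exists_sigma hpos (hB x y) (hB x (y + 1)) (hU x y) (hb x y) (hbB x y) (hb x (y + 1))
      (hbB x (y + 1)) ?_
    have e1 := hBcard x y
    have e2 := hBcard x (y + 1)
    have e3 := hUcard x y
    omega
  choose f hf using hsh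
  choose g hg using hsv
  -- a common good height
  have hgood : ∀ x y, ∃ z, z ≤ m ∧ (∀ w ∈ B x y, w.2.2.val ≠ z) ∧
      (∀ w ∈ B (x + 1) y, w.2.2.val ≠ z) ∧ (∀ w ∈ B x (y + 1), w.2.2.val ≠ z) ∧
      (∀ w ∈ B (x + 1) (y + 1), w.2.2.val ≠ z) ∧ (∀ w ∈ H x, w.2.2.val ≠ z) ∧
      (∀ w ∈ U x y, w.2.2.val ≠ z) ∧ (∀ w ∈ U (x + 1) y, w.2.2.val ≠ z) := by
    intro x y
    have hcard : ((B x y ∪ B (x + 1) y) ∪ (B x (y + 1) ∪ B (x + 1) (y + 1)) ∪
        (H x ∪ (U x y ∪ U (x + 1) y))).card ≤ m := by
      have c1 := Finset.card_union_le ((B x y ∪ B (x + 1) y) ∪ (B x (y + 1) ∪ B (x + 1) (y + 1)))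
        (H x ∪ (U x y ∪ U (x + 1) y))
      have c2 := Finset.card_union_le (B x y ∪ B (x + 1) y) (B x (y + 1) ∪ B (x + 1) (y + 1))
      have c3 := Finset.card_union_le (B x y) (B (x + 1) y)
      have c4 := Finset.card_union_le (B x (y + 1)) (B (x + 1) (y + 1))
      have c5 := Finset.card_union_le (H x) (U x y ∪ U (x + 1) y)
      have c6 := Finset.card_union_le (U x y) (U (x + 1) y)
      have d1 := hBcard x y
      have d2 := hBcard (x + 1) y
      have d3 := hBcard x (y + 1)
      have d4 := hBcard (x + 1) (y + 1)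
      have d5 := hHcard x
      have d6 := hUcard x y
      have d7 := hUcard (x + 1) y
      omega
    obtain ⟨z, hz, hav⟩ := exists_avoid _ hcard (fun w => w.2.2.val)
    exact ⟨z, hz, fun w hw => hav w (by simp [hw]), fun w hw => hav w (by simp [hw]),
      fun w hw => hav w (by simp [hw]), fun w hw => hav w (by simp [hw]),
      fun w hw => hav w (by simp [hw]), fun w hw => hav w (by simp [hw]),
      fun w hw => hav w (by simp [hw])⟩
  have hsq : ∀ x y, x < N → y < N → f x y + g (x + 1) y + f x (y + 1) + g x y = 0 := by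
    intro x y _ _
    obtain ⟨z, hz, z1, z2, z3, z4, z5, z6, z7⟩ := hgood x y
    rw [← hf x y z hz z1 z2 z5, ← hg (x + 1) y z hz z2 z4 z7, ← hf x (y + 1) z hz z3 z4 z5,
      ← hg x y z hz z1 z3 z6]
    have e1 := add_self2 (kk pos x y (b x y) z)
    have e2 := add_self2 (kk pos (x + 1) y (b (x + 1) y) z)
    have e3 := add_self2 (kk pos x (y + 1) (b x (y + 1)) z)
    have e4 := add_self2 (kk pos (x + 1) (y + 1) (b (x + 1) (y + 1)) z)
    linear_combination e1 + e2 + e3 + e4
  have hmain := boundary_sum f g N hsq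
  have hg0 : ∀ y, g 0 y = 0 := by
    intro y
    obtain ⟨z, hz, z1, z2, z3, z4, z5, z6, z7⟩ := hgood 0 y
    rw [← hg 0 y z hz z1 z3 z6, kk_zero (fun u v => on_zero_left (hpos1 u) (hpos1 v)),
      kk_zero (fun u v => on_zero_left (hpos1 u) (hpos1 v)), add_zero]
  have hgN : ∀ y, g N y = 0 := by
    intro y
    obtain ⟨z, hz, z1, z2, z3, z4, z5, z6, z7⟩ := hgood N y
    rw [← hg N y z hz z1 z3 z6, kk_zero (fun u v => on_top_left (hposN u) (hposN v)),
      kk_zero (fun u v => on_top_left (hposN u) (hposN v)), add_zero]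
  have hfN : ∀ x, f x N = 0 := by
    intro x
    obtain ⟨z, hz, z1, z2, z3, z4, z5, z6, z7⟩ := hgood x N
    rw [← hf x N z hz z1 z2 z5, kk_zero (fun u v => on_top_right (hposN u) (hposN v)),
      kk_zero (fun u v => on_top_right (hposN u) (hposN v)), add_zero]
  have hf0 : ∀ x, f x 0 = low x (pos (pt m 0 (b x 0) 0)) +
      low (x + 1) (pos (pt m 0 (b (x + 1) 0) 0)) := by
    intro x
    obtain ⟨z, hz, z1, z2, z3, z4, z5, z6, z7⟩ := hgood x 0
    rw [← hf x 0 z hz z1 z2 z5, kk_bottom, kk_bottom]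
    have hne : pos (pt m 0 0 z) ≠ x + 1 := hH x _ (fun h => z5 _ h (pt_thd hz))
    have e1 : low (x + 1) (pos (pt m 0 0 z)) = low x (pos (pt m 0 0 z)) := by
      unfold low
      have : pos (pt m 0 0 z) ≤ x + 1 ↔ pos (pt m 0 0 z) ≤ x := by omega
      simp only [this]
    rw [e1]
    have e2 := add_self2 (low x (pos (pt m 0 0 z)))
    linear_combination e2
  simp only [hg0, hgN, hfN, hf0, add_zero, Finset.sum_const_zero] at hmain
  rw [tele (fun x => low x (pos (pt m 0 (b x 0) 0)))] at hmain
  have e1 : low 0 (pos (pt m 0 (b 0 0) 0)) = 0 := by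
    unfold low
    rw [if_neg]
    have := hpos1 (pt m 0 (b 0 0) 0)
    omega
  have e2 : low N (pos (pt m 0 (b N 0) 0)) = 1 := by
    unfold low
    rw [if_pos (hposN _)]
  rw [e1, e2] at hmain
  exact absurd hmain (by decide)

end noStack

/-! ### From layouts to positions -/

/-- A stack layout of a finite graph gives positions. -/
lemma HasStackLayout.exists_pos {V : Type} [Fintype V] {G : SimpleGraph V} {s : ℕ}
    (h : HasStackLayout G s) :
    ∃ (pos : V → ℕ) (page : Sym2 V → Fin s), Function.Injective pos ∧ (∀ w, 1 ≤ pos w) ∧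
      (∀ w, pos w ≤ Fintype.card V) ∧ ∀ u v x y : V, G.Adj u v → G.Adj x y →
        pos u < pos x → pos x < pos v → pos v < pos y → page s(u, v) ≠ page s(x, y) := by
  classical
  obtain ⟨o, page, hpage⟩ := h
  let pos : V → ℕ := fun v => (Finset.univ.filter (fun w => w ≤ v)).card
  have hlt : ∀ u v, u < v → pos u < pos v := by
    intro u v huv
    apply Finset.card_lt_card
    rw [Finset.ssubset_iff_of_subset]
    · refine ⟨v, by simp, ?_⟩
      simp only [Finset.mem_filter, Finset.mem_univ, true_and, not_le]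
      exact huv
    · intro w hw
      simp only [Finset.mem_filter, Finset.mem_univ, true_and] at hw ⊢
      exact hw.trans huv.le
  have hlt' : ∀ u v, pos u < pos v → u < v := by
    intro u v huv
    rcases lt_trichotomy u v with h | h | h
    · exact h
    · rw [h] at huv
      exact absurd huv (lt_irrefl _)
    · exact absurd huv (Nat.lt_asymm (hlt v u h))
  refine ⟨pos, page, ?_, ?_, ?_, ?_⟩
  · intro u v huv
    rcases lt_trichotomy u v with h | h | h
    · have := hlt u v h
      omega
    · exact h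
    · have := hlt v u h
      omega
  · intro w
    exact Finset.card_pos.mpr ⟨w, by simp⟩
  · intro w
    exact Finset.card_le_univ _
  · intro u v x y huv hxy h1 h2 h3
    exact hpage u v x y huv hxy (hlt' _ _ h1) (hlt' _ _ h2) (hlt' _ _ h3)

/-- Every finite graph has a stack layout. -/
lemma exists_hasStackLayout {V : Type} [Fintype V] (G : SimpleGraph V) :
    ∃ k, HasStackLayout G k := by
  classical
  refine ⟨Fintype.card (Sym2 V), LinearOrder.lift' (Fintype.equivFin V)
    (Fintype.equivFin V).injective, Fintype.equivFin (Sym2 V), ?_⟩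
  intro u v x y _ _ h1 h2 h3 h
  have h4 := (Fintype.equivFin (Sym2 V)).injective h
  rw [Sym2.eq_iff] at h4
  have h1' : Fintype.equivFin V u < Fintype.equivFin V x := h1
  have h2' : Fintype.equivFin V x < Fintype.equivFin V v := h2
  have h3' : Fintype.equivFin V v < Fintype.equivFin V y := h3
  rcases h4 with ⟨rfl, rfl⟩ | ⟨rfl, rfl⟩
  · exact lt_irrefl _ h1'
  · exact lt_irrefl _ (h1'.trans (h2'.trans h3'))

/-- The grid has large stack-number. -/
theorem lt_stackNumber (k : ℕ) : k < stackNumber (grid (24 * k ^ 3 + 4 * k + 1)) := by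
  by_contra hcon
  push Not at hcon
  have hmem : HasStackLayout (grid (24 * k ^ 3 + 4 * k + 1))
      (stackNumber (grid (24 * k ^ 3 + 4 * k + 1))) :=
    Nat.sInf_mem (exists_hasStackLayout (grid (24 * k ^ 3 + 4 * k + 1)))
  obtain ⟨pos, page, hpos, hpos1, hposN, hNC⟩ := hmem.exists_pos
  refine no_stack ?_ hpos hpos1 hposN page hNC
  have e1 := Nat.pow_le_pow_left hcon 3
  omega

/-! ### The queue layout -/

/-- The order of the queue layout. -/
def psi {m : ℕ} (u : Cube m) : ℤ :=
  (u.2.2.val : ℤ) + 4 * (m + 1) * ((u.2.2.val : ℤ) - u.1.val +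
    4 * (m + 1) * ((u.2.2.val : ℤ) - u.2.1.val))

lemma psi_injective (m : ℕ) : Function.Injective (psi (m := m)) := by
  intro u v huv
  obtain ⟨a, b, c⟩ := u
  obtain ⟨a', b', c'⟩ := v
  unfold psi at huv
  simp only at huv
  have ha := a.isLt
  have hb := b.isLt
  have hc := c.isLt
  have ha' := a'.isLt
  have hb' := b'.isLt
  have hc' := c'.isLt
  have h1 : (c.val : ℤ) - c'.val = 0 := by
    apply Int.eq_zero_of_abs_lt_dvd (m := 4 * ((m : ℤ) + 1))
    · refine ⟨((c'.val : ℤ) - a'.val + 4 * (m + 1) * ((c'.val : ℤ) - b'.val)) -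
        ((c.val : ℤ) - a.val + 4 * (m + 1) * ((c.val : ℤ) - b.val)), ?_⟩
      linear_combination huv
    · rw [abs_lt]
      constructor <;> omega
  have hcc : c.val = c'.val := by omega
  have hM : (4 * ((m : ℤ) + 1)) ≠ 0 := by omega
  have h2 : 4 * ((m : ℤ) + 1) * (((c.val : ℤ) - a.val + 4 * (m + 1) * ((c.val : ℤ) - b.val)) -
      ((c'.val : ℤ) - a'.val + 4 * (m + 1) * ((c'.val : ℤ) - b'.val))) = 0 := by
    linear_combination huv - h1
  have h3 := (mul_eq_zero.mp h2).resolve_left hM
  rw [hcc] at h3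
  have h4 : (a'.val : ℤ) - a.val = 0 := by
    apply Int.eq_zero_of_abs_lt_dvd (m := 4 * ((m : ℤ) + 1))
    · refine ⟨(b.val : ℤ) - b'.val, ?_⟩
      linear_combination h3
    · rw [abs_lt]
      constructor <;> omega
  have h5 : 4 * ((m : ℤ) + 1) * ((b'.val : ℤ) - b.val) = 0 := by
    linear_combination h3 - h4
  have h6 := (mul_eq_zero.mp h5).resolve_left hM
  have haa : a = a' := Fin.ext (by omega)
  have hbb : b = b' := Fin.ext (by omega)
  have hcc' : c = c' := Fin.ext hcc
  rw [haa, hbb, hcc']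

/-- The queue of an edge of length `d`. -/
def cls (m : ℕ) (d : ℤ) : Fin 3 :=
  if d ≤ 4 * (m + 1) + 1 then 0 else if d ≤ (4 * (m + 1)) * (4 * (m + 1)) + 1 then 1 else 2

/-- The queue of an edge. -/
def queue (m : ℕ) : Sym2 (Cube m) → Fin 3 :=
  Sym2.lift ⟨fun u v => cls m |psi u - psi v|, fun u v => by
    simp only
    rw [abs_sub_comm]⟩

lemma length_cases {m : ℕ} {u v : Cube m} (h : (grid m).Adj u v) (huv : psi u < psi v) :
    (queue m s(u, v) = 0 ∧ 4 * (m + 1) ≤ psi v - psi u ∧ psi v - psi u ≤ 4 * (m + 1) + 1) ∨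
    (queue m s(u, v) = 1 ∧ (4 * (m + 1)) * (4 * (m + 1)) ≤ psi v - psi u ∧
      psi v - psi u ≤ (4 * (m + 1)) * (4 * (m + 1)) + 1) ∨
    (queue m s(u, v) = 2 ∧ (4 * (m + 1)) * (4 * (m + 1)) + 4 * (m + 1) ≤ psi v - psi u ∧
      psi v - psi u ≤ (4 * (m + 1)) * (4 * (m + 1)) + 4 * (m + 1) + 1) := by
  have hq : queue m s(u, v) = cls m (psi v - psi u) := by
    unfold queue
    rw [Sym2.lift_mk]
    simp only
    rw [abs_sub_comm, abs_of_pos (by omega)]
  rw [hq]
  have hM1 : (4 : ℤ) ≤ 4 * (m + 1) := by omega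
  have hM2 : 4 * (4 * ((m : ℤ) + 1)) ≤ (4 * (m + 1)) * (4 * (m + 1)) := by nlinarith
  have hcase : ∀ p q : Cube m, Step p q →
      (psi q - psi p = - (4 * (m + 1)) ∨ psi q - psi p = - ((4 * (m + 1)) * (4 * (m + 1))) ∨
        psi q - psi p = (4 * (m + 1)) * (4 * (m + 1)) + 4 * (m + 1) + 1 ∨
        psi q - psi p = - ((4 * (m + 1)) * (4 * (m + 1)) + 4 * (m + 1)) ∨
        psi q - psi p = (4 * (m + 1)) * (4 * (m + 1)) + 1 ∨
        psi q - psi p = 4 * (m + 1) + 1) := by
    intro p q hpq
    obtain ⟨h1, h2, h3, h4, h5⟩ := hpq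
    unfold psi
    rcases h1 with h1 | h1 <;> rcases h2 with h2 | h2 <;> rcases h3 with h3 | h3 <;>
      rw [h1, h2, h3] at h4 h5 ⊢ <;> push_cast
    · omega
    · right; right; left; ring
    · right; left; ring
    · right; right; right; right; right; ring
    · left; ring
    · right; right; right; right; left; ring
    · right; right; right; left; ring
    · omega
  unfold cls
  generalize hX : (4 * ((m : ℤ) + 1)) * (4 * (m + 1)) = X at *
  generalize hY : (4 * ((m : ℤ) + 1)) = Y at *
  rcases h with h | h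
  · have := hcase u v h
    split_ifs <;> simp <;> omega
  · have := hcase v u h
    split_ifs <;> simp <;> omega

theorem hasQueueLayout (m : ℕ) : HasQueueLayout (grid m) 3 := by
  refine ⟨LinearOrder.lift' psi (psi_injective m), queue m, ?_⟩
  intro u v x y huv hxy h1 h2 h3 h
  have h1' : psi u < psi x := h1
  have h2' : psi x < psi y := h2
  have h3' : psi y < psi v := h3
  have c1 := length_cases huv (by omega)
  have c2 := length_cases hxy h2'
  rw [h] at c1
  have hM2 : 4 * (4 * ((m : ℤ) + 1)) ≤ (4 * (m + 1)) * (4 * (m + 1)) := by nlinarith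
  generalize hX : (4 * ((m : ℤ) + 1)) * (4 * (m + 1)) = X at *
  rcases c1 with ⟨q1, c1⟩ | ⟨q1, c1⟩ | ⟨q1, c1⟩ <;>
    rcases c2 with ⟨q2, c2⟩ | ⟨q2, c2⟩ | ⟨q2, c2⟩ <;>
    first | (rw [q1] at q2; exact absurd q2 (by decide)) | omega

/-- **Graphs with queue-number at most 3 have unbounded stack-number.** -/
theorem result : ∀ k : ℕ, ∃ (V : Type) (_ : Fintype V) (G : SimpleGraph V),
    queueNumber G ≤ 3 ∧ k < stackNumber G :=
  fun k => ⟨Cube (24 * k ^ 3 + 4 * k + 1), inferInstance, grid (24 * k ^ 3 + 4 * k + 1),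
    Nat.sInf_le (hasQueueLayout _), lt_stackNumber k⟩

end Pool.Agent.Results.MP_0feef2_co.QueueThree
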